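import Mathlib

/-!
Definitions for the algebraic entropy of an endomorphism of a locally compact abelian group.
-/

namespace Pool.Agent.MP_827700_an

open MeasureTheory Filter Topology
open scoped Pointwise

/-- `T_n(φ, C) = C + φ C + ⋯ + φ^(n-1) C` (Minkowski sum of the iterated images). -/
def traj {G : Type*} [AddCommGroup G] (φ : G →+ G) (C : Set G) (n : ℕ) : Set G :=
  ∑ i ∈ Finset.range n, (⇑φ)^[i] '' C

/-- `H_A(φ, C) = limsup_n log μ(T_n(φ, C)) / n`, taken in the extended reals. -/
noncomputable def entropyAt {G : Type*} [AddCommGroup G] [MeasurableSpace G]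
    (μ : Measure G) (φ : G →+ G) (C : Set G) : EReal :=
  limsup (fun n : ℕ => ENNReal.log (μ (traj φ C n)) / (n : EReal)) atTop

/-- `h_A(φ)`: the supremum of `H_A(φ, C)` over the compact neighbourhoods `C` of `0`. -/
noncomputable def algEntropy {G : Type*} [AddCommGroup G] [TopologicalSpace G] [MeasurableSpace G]
    (μ : Measure G) (φ : G →+ G) : EReal :=
  ⨆ (C : Set G) (_ : IsCompact C) (_ : C ∈ 𝓝 (0 : G)), entropyAt μ φ C

/-- The restriction of `φ` to a `φ`-invariant subgroup `K`, as an endomorphism of `K`. -/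
def restr {G : Type*} [AddCommGroup G] (φ : G →+ G) (K : AddSubgroup G)
    (h : ∀ x ∈ K, φ x ∈ K) : K →+ K :=
  (φ.comp K.subtype).codRestrict K (fun x => h x x.2)

end Pool.Agent.MP_827700_an
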