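import Pool.Agent.MP_827700_an.Defs

namespace Pool.Agent.MP_827700_an

open MeasureTheory Filter Topology Set
open scoped Pointwise ENNReal

section traj
variable {G : Type*} [AddCommGroup G]

lemma traj_zero (φ : G →+ G) (C : Set G) : traj φ C 0 = {0} := by
  simp [traj, Set.singleton_zero]

lemma traj_succ (φ : G →+ G) (C : Set G) (n : ℕ) :
    traj φ C (n + 1) = C + φ '' traj φ C n := by
  have h : ∀ m : ℕ, φ '' (∑ i ∈ Finset.range m, (⇑φ)^[i] '' C)
      = ∑ i ∈ Finset.range m, (⇑φ)^[i + 1] '' C := by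
    intro m
    induction m with
    | zero => simp [← Set.singleton_zero]
    | succ m ih =>
      rw [Finset.sum_range_succ, Finset.sum_range_succ, Set.image_add, ih, ← Set.image_comp,
        Function.iterate_succ']
  unfold traj
  rw [Finset.sum_range_succ', h, add_comm]
  simp

lemma traj_mono (φ : G →+ G) {C D : Set G} (h : C ⊆ D) (n : ℕ) : traj φ C n ⊆ traj φ D n := by
  induction n with
  | zero => simp [traj_zero]
  | succ n ih =>
    rw [traj_succ, traj_succ]
    exact Set.add_subset_add h (Set.image_mono ih)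

/-- `T_{n+1}(A) + V ⊆ T_{n+1}(A + V)` when `0 ∈ V`. -/
lemma traj_add_subset (φ : G →+ G) (A V : Set G) (h0 : (0 : G) ∈ V) (n : ℕ) :
    traj φ A (n + 1) + V ⊆ traj φ (A + V) (n + 1) := by
  rw [traj_succ, traj_succ, add_right_comm]
  refine Set.add_subset_add subset_rfl (Set.image_mono (traj_mono φ ?_ n))
  intro a ha
  exact ⟨a, ha, 0, h0, by simp⟩

/-- If `C + φ C ⊆ C + F` and `0 ∈ C` then `T_n(C) ⊆ T_n(F) + C`. -/
lemma traj_subset_of_cover (φ : G →+ G) {C F : Set G} (h0 : (0 : G) ∈ C)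
    (h : C + φ '' C ⊆ F + C) (n : ℕ) : traj φ C n ⊆ traj φ F n + C := by
  induction n with
  | zero =>
    rw [traj_zero, traj_zero]
    intro x hx
    exact ⟨0, rfl, 0, h0, by simpa using hx.symm⟩
  | succ n ih =>
    rw [traj_succ, traj_succ]
    calc C + φ '' traj φ C n ⊆ C + φ '' (traj φ F n + C) :=
          Set.add_subset_add subset_rfl (Set.image_mono ih)
      _ = φ '' traj φ F n + (C + φ '' C) := by rw [Set.image_add]; abel
      _ ⊆ φ '' traj φ F n + (F + C) := Set.add_subset_add subset_rfl h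
      _ = F + φ '' traj φ F n + C := by abel

lemma image_traj_restr (φ : G →+ G) (K : AddSubgroup G) (h : ∀ x ∈ K, φ x ∈ K)
    (A : Set K) (n : ℕ) :
    K.subtype '' traj (restr φ K h) A n = traj φ (K.subtype '' A) n := by
  induction n with
  | zero => simp [traj_zero]
  | succ n ih =>
    rw [traj_succ, traj_succ, Set.image_add, ← ih, ← Set.image_comp, ← Set.image_comp]
    rfl

lemma isCompact_traj [TopologicalSpace G] [IsTopologicalAddGroup G] {φ : G →+ G}
    (hφ : Continuous φ) {C : Set G} (hC : IsCompact C) (n : ℕ) : IsCompact (traj φ C n) := by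
  induction n with
  | zero => rw [traj_zero]; exact isCompact_singleton
  | succ n ih => rw [traj_succ]; exact hC.add (ih.image hφ)

end traj

section packing
variable {G : Type*} [AddCommGroup G] [MeasurableSpace G] [MeasurableAdd G]
  (μ : Measure G) [μ.IsAddLeftInvariant]

lemma measure_singleton_add (a : G) (V : Set G) : μ ({a} + V) = μ V := by
  rw [Set.singleton_add, Set.image_add_left]
  exact measure_preimage_add μ (-a) V

lemma measure_finset_add_le (s : Finset G) (V : Set G) :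
    μ ((s : Set G) + V) ≤ s.card * μ V := by
  have : (s : Set G) + V = ⋃ a ∈ s, ({a} + V) := by
    ext x
    simp only [Set.mem_add, Set.mem_iUnion, Set.mem_singleton_iff, Finset.mem_coe]
    constructor
    · rintro ⟨a, ha, v, hv, rfl⟩
      exact ⟨a, ha, a, rfl, v, hv, rfl⟩
    · rintro ⟨a, ha, _, rfl, v, hv, rfl⟩
      exact ⟨_, ha, v, hv, rfl⟩
  rw [this]
  refine (measure_biUnion_finset_le s _).trans ?_
  simp [measure_singleton_add μ, -Set.singleton_add]

/-- A measure-theoretic Ruzsa covering lemma. -/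
lemma exists_packing {A V : Set G} (hV : MeasurableSet V) (hV0 : μ V ≠ 0)
    (hfin : μ (A + V) ≠ ∞) :
    ∃ s : Finset G, (s : Set G) ⊆ A ∧ A ⊆ (s : Set G) + (V - V) ∧ s.card * μ V ≤ μ (A + V) := by
  classical
  let P : Finset G → Prop := fun s =>
    (s : Set G) ⊆ A ∧ (s : Set G).PairwiseDisjoint (fun a => ({a} : Set G) + V)
  have hP : ∀ s, P s → s.card * μ V ≤ μ (A + V) := by
    rintro s ⟨hsA, hdis⟩
    have h1 : μ (⋃ a ∈ s, (({a} : Set G) + V)) = ∑ a ∈ s, μ ({a} + V) := by
      refine measure_biUnion_finset hdis ?_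
      intro a _
      rw [Set.singleton_add, Set.image_add_left]
      exact measurable_const_add _ hV
    have h2 : (⋃ a ∈ s, (({a} : Set G) + V)) ⊆ A + V := by
      refine Set.iUnion₂_subset fun a ha => Set.add_subset_add ?_ subset_rfl
      simpa using hsA ha
    calc (s.card : ℝ≥0∞) * μ V = ∑ a ∈ s, μ ({a} + V) := by
          simp [measure_singleton_add μ, -Set.singleton_add]
      _ = _ := h1.symm
      _ ≤ _ := measure_mono h2
  obtain ⟨N, hN⟩ : ∃ N : ℕ, ∀ s, P s → s.card ≤ N := by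
    obtain ⟨N, hN⟩ := ENNReal.exists_nat_gt (r := μ (A + V) / μ V)
      (ENNReal.div_ne_top hfin hV0)
    refine ⟨N, fun s hs => ?_⟩
    have h1 : (s.card : ℝ≥0∞) ≤ μ (A + V) / μ V :=
      (ENNReal.le_div_iff_mul_le (Or.inl hV0) (Or.inr hfin)).2 (hP s hs)
    exact_mod_cast (h1.trans_lt hN).le
  have hne : ∃ n, ∃ s, P s ∧ s.card = n := ⟨0, ∅, ⟨by simp, by simp⟩, rfl⟩
  obtain ⟨s, hs, hmax⟩ : ∃ s, P s ∧ ∀ t, P t → t.card ≤ s.card := by
    have hb : BddAbove {n | ∃ s, P s ∧ s.card = n} := ⟨N, by rintro n ⟨s, hs, rfl⟩; exact hN s hs⟩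
    obtain ⟨s, hs, hc⟩ := Nat.sSup_mem hne hb
    exact ⟨s, hs, fun t ht => hc ▸ le_csSup hb ⟨t, ht, rfl⟩⟩
  refine ⟨s, hs.1, ?_, hP s hs⟩
  intro a ha
  obtain ⟨v, hv⟩ : V.Nonempty := nonempty_of_measure_ne_zero hV0
  by_cases has : a ∈ s
  · exact ⟨a, has, 0, ⟨v, hv, v, hv, by simp⟩, by simp⟩
  by_contra hcon
  have hPt : P (insert a s) := by
    refine ⟨?_, ?_⟩
    · rw [Finset.coe_insert]
      exact Set.insert_subset ha hs.1
    · rw [Finset.coe_insert]
      refine hs.2.insert ?_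
      intro b hb _
      rw [Set.disjoint_left]
      rintro x ⟨a', ha', v1, hv1, rfl⟩ ⟨b', hb', v2, hv2, h⟩
      rw [Set.mem_singleton_iff] at ha' hb'
      subst ha' hb'
      apply hcon
      refine ⟨b', hb, v2 - v1, ⟨v2, hv2, v1, hv1, rfl⟩, ?_⟩
      simp only at h ⊢
      rw [← add_sub_assoc, h]; abel
  have := hmax _ hPt
  rw [Finset.card_insert_of_notMem has] at this
  omega

end packing

section compare
variable {G : Type*} [AddCommGroup G] [TopologicalSpace G] [IsTopologicalAddGroup G] [T2Space G]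
  [MeasurableSpace G] [BorelSpace G]

/-- Comparison of the measure of `G` with the measure of a subgroup `K`, first direction. -/
lemma measure_le_sub (μ : Measure G) [μ.IsAddHaarMeasure] (K : AddSubgroup G)
    (ν : Measure K) [ν.IsAddHaarMeasure] {V : Set K} (hV : IsCompact V) (hV0 : V ∈ 𝓝 (0 : K))
    {C : Set G} (hC : IsCompact C) :
    ∃ c : ℝ≥0∞, c ≠ ∞ ∧ ∀ A : Set K, IsCompact A → μ (K.subtype '' A + C) ≤ c * ν (A + V) := by
  have hVpos : ν V ≠ 0 := (Measure.measure_pos_of_mem_nhds ν hV0).ne'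
  have hVfin : ν V ≠ ∞ := hV.measure_lt_top.ne
  have hVV : IsCompact (V - V) := by
    rw [sub_eq_add_neg]; exact hV.add hV.neg
  have hE : IsCompact (K.subtype '' (V - V) + C) :=
    (hVV.image continuous_subtype_val).add hC
  refine ⟨μ (K.subtype '' (V - V) + C) / ν V, ENNReal.div_ne_top hE.measure_lt_top.ne hVpos,
    fun A hA => ?_⟩
  obtain ⟨s, -, hcov, hcard⟩ := exists_packing ν (A := A) hV.isClosed.measurableSet hVpos
    (hA.add hV).measure_lt_top.ne
  classical
  have h1 : K.subtype '' A + C ⊆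
      ((s.image K.subtype : Finset G) : Set G) + (K.subtype '' (V - V) + C) := by
    rw [← add_assoc, Finset.coe_image, ← Set.image_add]
    exact Set.add_subset_add (Set.image_mono hcov) subset_rfl
  have h2 : (s.card : ℝ≥0∞) ≤ ν (A + V) / ν V :=
    (ENNReal.le_div_iff_mul_le (Or.inl hVpos) (Or.inl hVfin)).2 hcard
  calc μ (K.subtype '' A + C) ≤ _ := measure_mono h1
    _ ≤ (s.image K.subtype).card * μ (K.subtype '' (V - V) + C) := measure_finset_add_le μ _ _
    _ ≤ s.card * μ (K.subtype '' (V - V) + C) := by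
        gcongr
        exact Finset.card_image_le
    _ ≤ (ν (A + V) / ν V) * μ (K.subtype '' (V - V) + C) := by gcongr
    _ = _ := by
        rw [div_eq_mul_inv, div_eq_mul_inv]; ring

/-- Comparison of the measure of `G` with the measure of a closed subgroup `K`, second direction. -/
lemma measure_sub_le (μ : Measure G) [μ.IsAddHaarMeasure] (K : AddSubgroup G)
    (hK : IsClosed (K : Set G))
    (ν : Measure K) [ν.IsAddHaarMeasure] {C : Set G} (hC : IsCompact C) (hC0 : C ∈ 𝓝 (0 : G)) :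
    ∃ c : ℝ≥0∞, c ≠ ∞ ∧ ∀ A : Set K, IsCompact A → ν A ≤ c * μ (K.subtype '' A + C) := by
  have hCpos : μ C ≠ 0 := (Measure.measure_pos_of_mem_nhds μ hC0).ne'
  have hCfin : μ C ≠ ∞ := hC.measure_lt_top.ne
  have hCC : IsCompact (C - C) := by
    rw [sub_eq_add_neg]; exact hC.add hC.neg
  have hE : IsCompact (K.subtype ⁻¹' (C - C)) :=
    hK.isClosedEmbedding_subtypeVal.isCompact_preimage hCC
  refine ⟨ν (K.subtype ⁻¹' (C - C)) / μ C, ENNReal.div_ne_top hE.measure_lt_top.ne hCpos,
    fun A hA => ?_⟩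
  obtain ⟨s, hsA, hcov, hcard⟩ := exists_packing μ (A := K.subtype '' A)
    hC.isClosed.measurableSet hCpos
    ((hA.image continuous_subtype_val).add hC).measure_lt_top.ne
  classical
  let t : Finset K := s.preimage K.subtype (K.subtype_injective.injOn)
  have htc : t.card ≤ s.card :=
    Finset.card_le_card_of_injOn K.subtype (fun x hx => by simpa [t] using hx)
      K.subtype_injective.injOn
  have h1 : A ⊆ (t : Set K) + K.subtype ⁻¹' (C - C) := by
    intro a ha
    obtain ⟨b, hb, w, hw, hbw⟩ := hcov ⟨a, ha, rfl⟩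
    obtain ⟨b', -, rfl⟩ := hsA hb
    refine ⟨b', by simpa [t] using hb, a - b', ?_, by simp⟩
    rw [Set.mem_preimage, map_sub, ← hbw]
    simpa using hw
  have h2 : (s.card : ℝ≥0∞) ≤ μ (K.subtype '' A + C) / μ C :=
    (ENNReal.le_div_iff_mul_le (Or.inl hCpos) (Or.inl hCfin)).2 hcard
  calc ν A ≤ _ := measure_mono h1
    _ ≤ t.card * ν (K.subtype ⁻¹' (C - C)) := measure_finset_add_le ν _ _
    _ ≤ s.card * ν (K.subtype ⁻¹' (C - C)) := by gcongr
    _ ≤ (μ (K.subtype '' A + C) / μ C) * ν (K.subtype ⁻¹' (C - C)) := by gcongr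
    _ = _ := by
        rw [div_eq_mul_inv, div_eq_mul_inv]; ring

omit [IsTopologicalAddGroup G] [T2Space G] [MeasurableSpace G] [BorelSpace G] in
lemma continuous_restr {φ : G →+ G} (hφ : Continuous φ) (K : AddSubgroup G)
    (h : ∀ x ∈ K, φ x ∈ K) : Continuous (restr φ K h) :=
  (hφ.comp continuous_subtype_val).subtype_mk _

lemma entropyAt_le_of {H : Type*} [AddCommGroup H] [MeasurableSpace H]
    {H' : Type*} [AddCommGroup H'] [MeasurableSpace H']
    (μ : Measure H) (ν : Measure H') (φ : H →+ H) (ψ : H' →+ H') (C : Set H) (D : Set H')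
    {c : ℝ≥0∞} (hc : c ≠ ∞) (h : ∀ n, μ (traj φ C (n + 1)) ≤ c * ν (traj ψ D (n + 1))) :
    entropyAt μ φ C ≤ entropyAt ν ψ D := by
  refine ExpGrowth.expGrowthSup_le_of_eventually_le (u := fun n => μ (traj φ C n))
    (v := fun n => ν (traj ψ D n)) hc ?_
  filter_upwards [eventually_ge_atTop 1] with n hn
  obtain ⟨m, rfl⟩ := Nat.exists_eq_add_of_le' hn
  exact h m

/-- Monotonicity for closed invariant subgroups. -/
lemma algEntropy_restr_le [LocallyCompactSpace G] (μ : Measure G) [μ.IsAddHaarMeasure]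
    {φ : G →+ G} (hφ : Continuous φ) (K : AddSubgroup G) (hK : IsClosed (K : Set G))
    (h : ∀ x ∈ K, φ x ∈ K) (ν : Measure K) [ν.IsAddHaarMeasure] :
    algEntropy ν (restr φ K h) ≤ algEntropy μ φ := by
  refine iSup_le fun D => iSup_le fun hD => iSup_le fun _ => ?_
  obtain ⟨C, hC, hC0⟩ := exists_compact_mem_nhds (0 : G)
  obtain ⟨c, hc, hle⟩ := measure_sub_le μ K hK ν hC hC0
  have hD0 : (0 : K) ∈ D := mem_of_mem_nhds ‹_›
  have hE : IsCompact (K.subtype '' D + C) := (hD.image continuous_subtype_val).add hC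
  have hE0 : K.subtype '' D + C ∈ 𝓝 (0 : G) := by
    refine mem_of_superset hC0 fun x hx => ⟨0, ⟨0, hD0, rfl⟩, x, hx, by simp⟩
  refine le_trans ?_ (le_iSup₂_of_le (K.subtype '' D + C) hE (le_iSup_of_le hE0 le_rfl))
  refine entropyAt_le_of ν μ _ _ _ _ hc fun n => ?_
  refine (hle _ (isCompact_traj (continuous_restr hφ K h) hD _)).trans ?_
  gcongr
  rw [image_traj_restr]
  exact traj_add_subset φ _ _ (mem_of_mem_nhds hC0) n

/-- Each `H_A(φ, C)` is attained up to the entropy of any closed invariant subgroup containing a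
suitable finite set. -/
lemma exists_finset_entropyAt_le (μ : Measure G) [μ.IsAddHaarMeasure]
    {φ : G →+ G} (hφ : Continuous φ) {C : Set G} (hC : IsCompact C) (hC0 : C ∈ 𝓝 (0 : G)) :
    ∃ F : Finset G, ∀ (K : AddSubgroup G) (_ : IsClosed (K : Set G)) (h : ∀ x ∈ K, φ x ∈ K)
      (ν : Measure K) [ν.IsAddHaarMeasure], (F : Set G) ⊆ K →
      entropyAt μ φ C ≤ algEntropy ν (restr φ K h) := by
  classical
  obtain ⟨t, ht⟩ := compact_covered_by_add_left_translates (hC.add (hC.image hφ))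
    (V := C) ⟨0, mem_interior_iff_mem_nhds.2 hC0⟩
  let F : Finset G := insert 0 (t.image Neg.neg)
  have hcov : C + φ '' C ⊆ (F : Set G) + C := by
    intro x hx
    obtain ⟨g, hg, hx'⟩ := Set.mem_iUnion₂.1 (ht hx)
    refine ⟨-g, ?_, g + x, hx', by simp⟩
    simp only [F, Finset.coe_insert, Finset.coe_image]
    exact Or.inr ⟨g, hg, rfl⟩
  refine ⟨F, fun K hK h ν _ hFK => ?_⟩
  let V : Set K := K.subtype ⁻¹' C
  have hV : IsCompact V := hK.isClosedEmbedding_subtypeVal.isCompact_preimage hC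
  have hV0 : V ∈ 𝓝 (0 : K) := continuous_subtype_val.continuousAt.preimage_mem_nhds hC0
  let A : Set K := K.subtype ⁻¹' (F : Set G)
  have hAfin : A.Finite := F.finite_toSet.preimage K.subtype_injective.injOn
  have hAF : K.subtype '' A = F := by
    refine Set.image_preimage_eq_of_subset ?_
    intro x hx
    exact ⟨⟨x, hFK hx⟩, rfl⟩
  have hA0 : (0 : K) ∈ A := by simp [A, F]
  obtain ⟨c, hc, hle⟩ := measure_le_sub μ K ν hV hV0 hC
  have hD : IsCompact (A + V) := hAfin.isCompact.add hV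
  have hD0 : A + V ∈ 𝓝 (0 : K) :=
    mem_of_superset hV0 fun x hx => ⟨0, hA0, x, hx, by simp⟩
  refine le_trans ?_ (le_iSup₂_of_le (A + V) hD (le_iSup_of_le hD0 le_rfl))
  refine entropyAt_le_of μ ν _ _ _ _ hc fun n => ?_
  have h1 := traj_subset_of_cover φ (mem_of_mem_nhds hC0) hcov (n + 1)
  rw [← hAF, ← image_traj_restr φ K h] at h1
  refine (measure_mono h1).trans ?_
  refine (hle _ (isCompact_traj (continuous_restr hφ K h) hAfin.isCompact _)).trans ?_
  gcongr
  exact traj_add_subset _ _ _ (mem_of_mem_nhds hV0) n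

theorem upper_continuous [LocallyCompactSpace G] (μ : Measure G) [μ.IsAddHaarMeasure]
    (φ : G →+ G) (hφ : Continuous φ) {I : Type*} (K : I → AddSubgroup G)
    (hclosed : ∀ i, IsClosed (K i : Set G)) (hinv : ∀ i, ∀ x ∈ K i, φ x ∈ K i)
    (hdir : Directed (· ≤ ·) K) (hunion : ⋃ i, (K i : Set G) = Set.univ)
    (ν : ∀ i, Measure (K i)) [∀ i, (ν i).IsAddHaarMeasure] :
    algEntropy μ φ = ⨆ i, algEntropy (ν i) (restr φ (K i) (hinv i)) := by
  apply le_antisymm
  · refine iSup_le fun C => iSup_le fun hC => iSup_le fun hC0 => ?_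
    obtain ⟨F, hF⟩ := exists_finset_entropyAt_le μ hφ hC hC0
    have hne : Nonempty I := by
      obtain ⟨i, -⟩ := Set.mem_iUnion.1 (hunion ▸ Set.mem_univ (0 : G))
      exact ⟨i⟩
    have hdir' : Directed (· ⊆ ·) fun i => (K i : Set G) := by
      intro i j
      obtain ⟨k, hik, hjk⟩ := hdir i j
      exact ⟨k, hik, hjk⟩
    obtain ⟨i, hi⟩ := hdir'.exists_mem_subset_of_finset_subset_biUnion (s := F)
      (by rw [hunion]; exact Set.subset_univ _)
    exact le_iSup_of_le i (hF (K i) (hclosed i) (hinv i) (ν i) hi)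
  · exact iSup_le fun i => algEntropy_restr_le μ hφ (K i) (hclosed i) (hinv i) (ν i)

end compare

end Pool.Agent.MP_827700_an
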